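import Mathlib

set_option autoImplicit false

/-!
Products of two subgroups of a finite group: prefactorised Sylow subgroups and their normalisers.
-/

namespace Pool.Agent.Q100.Prod

open scoped Pointwise

variable {G : Type*} [Group G]

/-- `G = AB`. -/
def IsProd (A B : Subgroup G) : Prop := ∀ g : G, ∃ a ∈ A, ∃ b ∈ B, g = a * b

theorem IsProd.symm {A B : Subgroup G} (h : IsProd A B) : IsProd B A := by
  intro g
  obtain ⟨a, ha, b, hb, hab⟩ := h g⁻¹
  refine ⟨b⁻¹, inv_mem hb, a⁻¹, inv_mem ha, ?_⟩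
  rw [← mul_inv_rev, ← hab, inv_inv]

/-- The product of two permuting subgroups, as a subgroup. -/
def prodSub (A U : Subgroup G) (h : ∀ u ∈ U, ∀ a ∈ A, ∃ a' ∈ A, ∃ u' ∈ U, u * a = a' * u') :
    Subgroup G where
  carrier := {x | ∃ a ∈ A, ∃ u ∈ U, x = a * u}
  one_mem' := ⟨1, one_mem _, 1, one_mem _, by simp⟩
  mul_mem' := by
    rintro x y ⟨a, ha, u, hu, rfl⟩ ⟨b, hb, v, hv, rfl⟩
    obtain ⟨a', ha', u', hu', e⟩ := h u hu b hb
    refine ⟨a * a', mul_mem ha ha', u' * v, mul_mem hu' hv, ?_⟩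
    calc a * u * (b * v) = a * (u * b) * v := by group
      _ = a * a' * (u' * v) := by rw [e]; group
  inv_mem' := by
    rintro x ⟨a, ha, u, hu, rfl⟩
    obtain ⟨a', ha', u', hu', e⟩ := h u⁻¹ (inv_mem hu) a⁻¹ (inv_mem ha)
    exact ⟨a', ha', u', hu', by rw [mul_inv_rev, e]⟩

theorem mem_prodSub {A U : Subgroup G}
    {h : ∀ u ∈ U, ∀ a ∈ A, ∃ a' ∈ A, ∃ u' ∈ U, u * a = a' * u'} {x : G} :
    x ∈ prodSub A U h ↔ ∃ a ∈ A, ∃ u ∈ U, x = a * u := Iff.rfl

theorem le_prodSub_left {A U : Subgroup G}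
    {h : ∀ u ∈ U, ∀ a ∈ A, ∃ a' ∈ A, ∃ u' ∈ U, u * a = a' * u'} : A ≤ prodSub A U h :=
  fun a ha => ⟨a, ha, 1, one_mem _, by simp⟩

theorem le_prodSub_right {A U : Subgroup G}
    {h : ∀ u ∈ U, ∀ a ∈ A, ∃ a' ∈ A, ∃ u' ∈ U, u * a = a' * u'} : U ≤ prodSub A U h :=
  fun u hu => ⟨1, one_mem _, u, hu, by simp⟩

/-- The product formula. -/
theorem card_mul_inf (A B : Subgroup G) :
    Nat.card ((A : Set G) * (B : Set G) : Set G) * Nat.card (A ⊓ B : Subgroup G) =
      Nat.card A * Nat.card B := by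
  classical
  rw [Subgroup.card_mul_eq_card_subgroup_mul_card_quotient]
  have h1 : Nat.card ((fun x : G => (x : G ⧸ B)) '' (A : Set G) : Set (G ⧸ B)) =
      B.relIndex A := by
    rw [Subgroup.relIndex, Subgroup.index]
    symm
    apply Nat.card_congr
    refine Equiv.ofBijective (fun z => ⟨Quotient.liftOn' z (fun a : A => ((a : G) : G ⧸ B)) ?_, ?_⟩)
      ⟨?_, ?_⟩
    · intro a b hab
      rw [QuotientGroup.leftRel_apply] at hab
      rw [QuotientGroup.eq]
      exact hab
    · induction z using Quotient.inductionOn' with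
      | h a => exact ⟨a, a.2, rfl⟩
    · intro y z
      induction y using Quotient.inductionOn' with
      | h a =>
        induction z using Quotient.inductionOn' with
        | h b =>
          intro hab
          have h2 := congrArg Subtype.val hab
          have h3 : ((a : G) : G ⧸ B) = ((b : G) : G ⧸ B) := h2
          rw [QuotientGroup.eq] at h3
          apply Quotient.sound'
          rw [QuotientGroup.leftRel_apply]
          exact h3
    · rintro ⟨_, a, ha, rfl⟩
      exact ⟨Quotient.mk'' ⟨a, ha⟩, rfl⟩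
  rw [h1]
  have h2 : B.relIndex A * Nat.card (A ⊓ B : Subgroup G) = Nat.card A := by
    have h3 := Subgroup.card_mul_index ((A ⊓ B).subgroupOf A)
    have h4 : Nat.card ((A ⊓ B).subgroupOf A) = Nat.card (A ⊓ B : Subgroup G) :=
      Nat.card_congr (Subgroup.subgroupOfEquivOfLe inf_le_left).toEquiv
    have h5 : ((A ⊓ B).subgroupOf A).index = B.relIndex A := by
      change (A ⊓ B).relIndex A = _
      rw [inf_comm, Subgroup.inf_relIndex_right]
    rw [h4, h5] at h3
    rw [mul_comm]; exact h3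
  rw [mul_assoc, h2, mul_comm]

theorem IsProd.card {A B : Subgroup G} (h : IsProd A B) :
    Nat.card G * Nat.card (A ⊓ B : Subgroup G) = Nat.card A * Nat.card B := by
  rw [← card_mul_inf]
  congr 1
  have : ((A : Set G) * (B : Set G) : Set G) = Set.univ := by
    ext g
    simp only [Set.mem_univ, iff_true]
    obtain ⟨a, ha, b, hb, rfl⟩ := h g
    exact Set.mul_mem_mul ha hb
  rw [this]
  exact (Nat.card_congr (Equiv.Set.univ G)).symm

/-! ### Sylow subgroups -/

/-- The order of `P ⊓ A` is the full `p`-part of the order of `A`. -/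
def IsSylIn (p : ℕ) (P : Subgroup G) (A : Subgroup G) : Prop :=
  Nat.card (P ⊓ A : Subgroup G) = p ^ (Nat.card A).factorization p

theorem exists_sylow_inf [Finite G] (p : ℕ) [hp : Fact p.Prime] (A : Subgroup G) :
    ∃ P : Sylow p G, IsSylIn p P A := by
  obtain ⟨R⟩ : Nonempty (Sylow p A) := inferInstance
  obtain ⟨P, hP⟩ := R.exists_comap_subtype_eq
  refine ⟨P, ?_⟩
  have h1 : Nat.card (P ⊓ A : Subgroup G) = Nat.card R := by
    have h2 : Nat.card ((P : Subgroup G).subgroupOf A) = Nat.card (P ⊓ A : Subgroup G) := by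
      rw [← Subgroup.inf_subgroupOf_right]
      exact Nat.card_congr (Subgroup.subgroupOfEquivOfLe inf_le_right).toEquiv
    rw [← h2]
    have h3 : (P : Subgroup G).subgroupOf A = (R : Subgroup A) := hP
    rw [h3]
  rw [IsSylIn, h1, Sylow.card_eq_multiplicity]

theorem isSylIn_smul {p : ℕ} {P : Subgroup G} {A : Subgroup G} {a : G} (ha : a ∈ A)
    (h : IsSylIn p P A) : IsSylIn p (MulAut.conj a • P) A := by
  rw [IsSylIn, ← h]
  have h1 : (MulAut.conj a • P ⊓ A : Subgroup G) = MulAut.conj a • (P ⊓ A) := by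
    rw [Subgroup.smul_inf]
    congr 1
    exact (Subgroup.conj_smul_eq_self_of_mem ha).symm
  rw [h1]
  exact Nat.card_congr (Subgroup.equivSMul (MulAut.conj a) (P ⊓ A)).toEquiv.symm

/-- Wielandt's lemma: there is a prefactorised Sylow subgroup. -/
theorem exists_prefactorised [Finite G] {A B : Subgroup G} (h : IsProd A B) (p : ℕ)
    [hp : Fact p.Prime] :
    ∃ P : Sylow p G, IsSylIn p P A ∧ IsSylIn p P B ∧
      ∀ x ∈ P, ∃ u ∈ (P : Subgroup G) ⊓ A, ∃ v ∈ (P : Subgroup G) ⊓ B, x = u * v := by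
  obtain ⟨P1, h1⟩ := exists_sylow_inf p A
  obtain ⟨P2, h2⟩ := exists_sylow_inf p B
  obtain ⟨g, hg⟩ := MulAction.exists_smul_eq G P1 P2
  obtain ⟨b, hb, a, ha, rfl⟩ := h.symm g
  set P : Sylow p G := a • P1 with hP
  have hPA : IsSylIn p P A := by
    have := isSylIn_smul ha h1
    exact this
  have hPB : IsSylIn p P B := by
    have e : P = b⁻¹ • P2 := by
      rw [← hg, hP, ← mul_smul, inv_mul_cancel_left]
    rw [e]
    exact isSylIn_smul (inv_mem hb) h2
  refine ⟨P, hPA, hPB, ?_⟩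
  -- the product `(P ∩ A)(P ∩ B)` is contained in `P` and has at least `|P|` elements
  have hsub : (((P : Subgroup G) ⊓ A : Subgroup G) : Set G) *
      (((P : Subgroup G) ⊓ B : Subgroup G) : Set G) ⊆ ((P : Subgroup G) : Set G) := by
    rintro _ ⟨x, hx, y, hy, rfl⟩
    exact mul_mem hx.1 hy.1
  have hcard := card_mul_inf ((P : Subgroup G) ⊓ A) ((P : Subgroup G) ⊓ B)
  have hG := h.card
  have hA0 : Nat.card A ≠ 0 := Nat.card_pos.ne'
  have hB0 : Nat.card B ≠ 0 := Nat.card_pos.ne'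
  have hG0 : Nat.card G ≠ 0 := Nat.card_pos.ne'
  have hAB0 : Nat.card (A ⊓ B : Subgroup G) ≠ 0 := Nat.card_pos.ne'
  have hf := congrArg (fun n => n.factorization p) hG
  rw [Nat.factorization_mul hG0 hAB0, Nat.factorization_mul hA0 hB0] at hf
  simp only [Finsupp.add_apply] at hf
  rw [IsSylIn] at hPA hPB
  rw [hPA, hPB, ← pow_add, ← hf, pow_add] at hcard
  have hPc : Nat.card (P : Subgroup G) = p ^ (Nat.card G).factorization p :=
    Sylow.card_eq_multiplicity P
  set D : Subgroup G := (P : Subgroup G) ⊓ A ⊓ ((P : Subgroup G) ⊓ B) with hD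
  have hDp : IsPGroup p D :=
    P.isPGroup'.to_le (inf_le_left.trans inf_le_left)
  have hDle : D ≤ A ⊓ B := by
    rw [hD]
    exact le_inf (inf_le_left.trans inf_le_right) (inf_le_right.trans inf_le_right)
  obtain ⟨k, hk⟩ := (IsPGroup.iff_card).1 hDp
  have hDc : Nat.card D ≤ p ^ (Nat.card (A ⊓ B : Subgroup G)).factorization p := by
    rw [hk]
    apply Nat.pow_le_pow_right hp.out.pos
    rw [← hp.out.pow_dvd_iff_le_factorization hAB0, ← hk]
    exact Subgroup.card_dvd_of_le hDle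
  have hge : Nat.card (P : Subgroup G) ≤
      Nat.card ((((P : Subgroup G) ⊓ A : Subgroup G) : Set G) *
      (((P : Subgroup G) ⊓ B : Subgroup G) : Set G) : Set G) := by
    rw [hPc]
    have hpos : 0 < p ^ (Nat.card (A ⊓ B : Subgroup G)).factorization p := pow_pos hp.out.pos _
    by_contra hlt
    push Not at hlt
    have := Nat.mul_lt_mul_of_lt_of_le hlt hDc hpos
    rw [hcard] at this
    exact lt_irrefl _ this
  have heq : (((P : Subgroup G) ⊓ A : Subgroup G) : Set G) *
      (((P : Subgroup G) ⊓ B : Subgroup G) : Set G) = ((P : Subgroup G) : Set G) := by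
    apply Set.eq_of_subset_of_ncard_le hsub _ (Set.toFinite _)
    exact hge
  intro x hx
  have hx' : x ∈ ((P : Subgroup G) : Set G) := hx
  rw [← heq] at hx'
  obtain ⟨u, hu, v, hv, e⟩ := hx'
  exact ⟨u, hu, v, hv, e.symm⟩

end Pool.Agent.Q100.Prod
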