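import Pool.Agent.Q100.Prod.Basic

set_option autoImplicit false

/-!
Mutually permutable products: the normaliser of a prefactorised Sylow subgroup is factorised, and
a `q`-element of `A` normalising `P` and centralising `P ∩ A` centralises `P` if `q` does not
divide `p - 1`.
-/

namespace Pool.Agent.Q100.Prod

open scoped Pointwise

variable {G : Type*} [Group G]

/-- `B` permutes with every subgroup of `A`, in element form. -/
def PermSub (A B : Subgroup G) : Prop :=
  ∀ U : Subgroup G, U ≤ B → ∀ u ∈ U, ∀ a ∈ A, ∃ a' ∈ A, ∃ u' ∈ U, u * a = a' * u'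

theorem permSub_of {A B : Subgroup G}
    (h : ∀ U : Subgroup G, U ≤ B → (A : Set G) * (U : Set G) = (U : Set G) * (A : Set G)) :
    PermSub A B := by
  intro U hU u hu a ha
  have h1 : u * a ∈ (A : Set G) * (U : Set G) := by
    rw [h U hU]; exact Set.mul_mem_mul hu ha
  obtain ⟨a', ha', u', hu', e⟩ := h1
  exact ⟨a', ha', u', hu', e.symm⟩

/-- Two Sylow subgroups of `G` inside a subgroup `T` are conjugate by an element of `T`. -/
theorem conj_in [Finite G] {p : ℕ} [Fact p.Prime] (P Q : Sylow p G) (T : Subgroup G)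
    (hP : (P : Subgroup G) ≤ T) (hQ : (Q : Subgroup G) ≤ T) : ∃ t ∈ T, t • P = Q := by
  obtain ⟨t, ht⟩ := MulAction.exists_smul_eq T (P.subtype hP) (Q.subtype hQ)
  refine ⟨t, t.2, ?_⟩
  rw [Sylow.smul_subtype] at ht
  exact Sylow.subtype_injective ht

theorem mem_normalizer_of_smul {p : ℕ} {P : Sylow p G} {g : G} (h : g • P = P) :
    g ∈ Subgroup.normalizer ((P : Subgroup G) : Set G) :=
  Sylow.smul_eq_iff_mem_normalizer.1 h

theorem le_smul {p : ℕ} (P : Sylow p G) (a : G) (T : Subgroup G)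
    (hP : (P : Subgroup G) ≤ T) (ha : a ∈ T) : ((a • P : Sylow p G) : Subgroup G) ≤ T := by
  intro x hx
  have h1 : x ∈ MulAut.conj a • (P : Subgroup G) := hx
  rw [Subgroup.mem_smul_pointwise_iff_exists] at h1
  obtain ⟨y, hy, rfl⟩ := h1
  exact mul_mem (mul_mem ha (hP hy)) (inv_mem ha)

/-- The normaliser of a prefactorised Sylow subgroup of a mutually permutable product is the
product of its intersections with the factors. -/
theorem normalizer_factor [Finite G] {A B : Subgroup G} (hG : IsProd A B)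
    (hAB : PermSub A B) (hBA : PermSub B A) {p : ℕ} [Fact p.Prime] (P : Sylow p G)
    (hP : ∀ x ∈ P, ∃ u ∈ (P : Subgroup G) ⊓ A, ∃ v ∈ (P : Subgroup G) ⊓ B, x = u * v)
    (x : G) (hx : x ∈ Subgroup.normalizer ((P : Subgroup G) : Set G)) :
    ∃ a ∈ A ⊓ Subgroup.normalizer ((P : Subgroup G) : Set G),
      ∃ b ∈ B ⊓ Subgroup.normalizer ((P : Subgroup G) : Set G), x = a * b := by
  have hPN : (P : Subgroup G) ≤ Subgroup.normalizer ((P : Subgroup G) : Set G) :=
    Subgroup.le_normalizer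
  obtain ⟨a, ha, b, hb, rfl⟩ := hG x
  -- the two subgroups `A P_B` and `B P_A`
  set S1 := prodSub A ((P : Subgroup G) ⊓ B) (hAB _ inf_le_right) with hS1
  set S2 := prodSub B ((P : Subgroup G) ⊓ A) (hBA _ inf_le_right) with hS2
  have hPS1 : (P : Subgroup G) ≤ S1 := by
    intro y hy
    obtain ⟨u, hu, v, hv, rfl⟩ := hP y hy
    exact ⟨u, hu.2, v, hv, rfl⟩
  have hPS2 : (P : Subgroup G) ≤ S2 := by
    intro y hy
    obtain ⟨u, hu, v, hv, e⟩ := hP y⁻¹ (inv_mem hy)
    exact ⟨v⁻¹, inv_mem hv.2, u⁻¹, inv_mem hu, by rw [← mul_inv_rev, ← e, inv_inv]⟩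
  -- `P^a = P^(b⁻¹)`
  have hsm : (a * b) • P = P := Sylow.smul_eq_iff_mem_normalizer.2 hx
  have heq : a⁻¹ • P = b • P := by
    conv_lhs => rw [← hsm]
    rw [← mul_smul]; simp
  have h1 : ((a⁻¹ • P : Sylow p G) : Subgroup G) ≤ S1 :=
    le_smul P a⁻¹ S1 hPS1 (le_prodSub_left (inv_mem ha))
  have h2 : ((a⁻¹ • P : Sylow p G) : Subgroup G) ≤ S2 := by
    rw [heq]; exact le_smul P b S2 hPS2 (le_prodSub_left hb)
  obtain ⟨t, ht, htP⟩ := conj_in P (a⁻¹ • P) (S1 ⊓ S2) (le_inf hPS1 hPS2) (le_inf h1 h2)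
  -- decompose `t = v d u`
  obtain ⟨ht1, ht2⟩ := Subgroup.mem_inf.1 ht
  obtain ⟨b1, hb1, u, hu, rfl⟩ := ht2
  have hb1S : b1 ∈ S1 := by
    have h3 : u ∈ S1 := le_prodSub_left (Subgroup.mem_inf.1 hu).2
    have := S1.mul_mem ht1 (S1.inv_mem h3)
    rwa [mul_inv_cancel_right] at this
  obtain ⟨a1, ha1, v, hv, e1⟩ := (inv_mem hb1S : b1⁻¹ ∈ S1)
  -- `b1 = v⁻¹ a1⁻¹`
  have hb1' : b1 = v⁻¹ * a1⁻¹ := by rw [← mul_inv_rev, ← e1, inv_inv]
  obtain ⟨hvP, hvB⟩ := Subgroup.mem_inf.1 hv
  have huP : u • P = P := Sylow.smul_eq_iff_mem_normalizer.2 (hPN (Subgroup.mem_inf.1 hu).1)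
  have h3 : b1 • P = a⁻¹ • P := by
    rw [← htP, mul_smul, huP]
  have h4 : (a * b1) • P = P := by
    rw [mul_smul, h3, ← mul_smul, mul_inv_cancel, one_smul]
  have h5 : a * b1 ∈ Subgroup.normalizer ((P : Subgroup G) : Set G) :=
    Sylow.smul_eq_iff_mem_normalizer.1 h4
  have h6 : a * b1 ∈ S1 := mul_mem (le_prodSub_left ha) hb1S
  obtain ⟨a2, ha2, v2, hv2', e2⟩ := h6
  have hv2 := Subgroup.mem_inf.1 hv2'
  have ha2N : a2 ∈ Subgroup.normalizer ((P : Subgroup G) : Set G) := by
    have : a2 = a * b1 * v2⁻¹ := by rw [e2]; group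
    rw [this]
    exact Subgroup.mul_mem _ h5 (Subgroup.inv_mem _ (hPN hv2.1))
  refine ⟨a2, ⟨ha2, ha2N⟩, v2 * b1⁻¹ * b,
    ⟨B.mul_mem (B.mul_mem hv2.2 (B.inv_mem hb1)) hb, ?_⟩, ?_⟩
  · have : v2 * b1⁻¹ * b = a2⁻¹ * (a * b) := by
      have e3 : a2 = a * b1 * v2⁻¹ := by rw [e2]; group
      rw [e3]; group
    rw [this]
    exact Subgroup.mul_mem _ (Subgroup.inv_mem _ ha2N) hx
  · have e3 : a2 = a * b1 * v2⁻¹ := by rw [e2]; group
    rw [e3]; group

/-- Coprime action on a subgroup of index at most `p`. -/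
theorem centralizes_of_index_le [Finite G] {p q : ℕ} (hp : p.Prime) [hq : Fact q.Prime]
    (hqp : q ≠ p) (hqd : ¬ q ∣ p - 1) (a : G) (ha : ∃ k : ℕ, a ^ q ^ k = 1)
    (R R' : Subgroup G) (hR : IsPGroup p R) (hle : R' ≤ R)
    (hnorm : ∀ r ∈ R, a * r * a⁻¹ ∈ R) (hcent : ∀ r ∈ R', a * r = r * a)
    (hcard : Nat.card R ≤ p * Nat.card R') : ∀ r ∈ R, a * r = r * a := by
  classical
  have hpF : Fact p.Prime := ⟨hp⟩
  obtain ⟨n, hn⟩ := IsPGroup.iff_card.1 hR
  have hR' : IsPGroup p R' := hR.to_le hle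
  obtain ⟨m, hm⟩ := IsPGroup.iff_card.1 hR'
  have hmn : m ≤ n := by
    have := Subgroup.card_dvd_of_le hle
    rw [hn, hm] at this
    exact (Nat.pow_dvd_pow_iff_le_right hp.one_lt).1 this
  have hnm : n ≤ m + 1 := by
    rw [hn, hm, ← pow_succ'] at hcard
    exact (Nat.pow_le_pow_iff_right hp.one_lt).1 hcard
  rcases Nat.eq_or_lt_of_le hmn with heq | hlt
  · -- `R' = R`
    have : R' = R := Subgroup.eq_of_le_of_card_ge hle (by rw [hn, hm, heq])
    intro r hr
    exact hcent r (this ▸ hr)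
  · have hn' : n = m + 1 := by omega
    -- the centraliser of `a` in `R`
    set C : Subgroup G := Subgroup.centralizer {a} ⊓ R with hC
    have hmemC : ∀ r, r ∈ C ↔ (a * r = r * a ∧ r ∈ R) := by
      intro r
      rw [hC, Subgroup.mem_inf, Subgroup.mem_centralizer_singleton_iff]
      constructor
      · rintro ⟨h1, h2⟩; exact ⟨h1.symm, h2⟩
      · rintro ⟨h1, h2⟩; exact ⟨h1.symm, h2⟩
    have hR'C : R' ≤ C := fun r hr => (hmemC r).2 ⟨hcent r hr, hle hr⟩
    have hCR : C ≤ R := inf_le_right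
    -- a fixed point of `a` on `R \ R'`
    let S : Set G := {r | r ∈ R ∧ r ∉ R'}
    have hinv : ∀ r ∈ R', a * r * a⁻¹ ∈ R' := by
      intro r hr
      rw [hcent r hr, mul_inv_cancel_right]; exact hr
    have hbij : ∀ r, a * r * a⁻¹ ∈ R' → r ∈ R' := by
      intro r hr
      have h1 := hcent _ hr
      have h2 : a * r * a⁻¹ = r := by
        have h3 : a * (a * r * a⁻¹) * a⁻¹ = a * r * a⁻¹ := by rw [h1]; group
        have h4 : a * r * a⁻¹ = r := by
          have h5 := congrArg (fun z => a⁻¹ * z * a) h3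
          have e1 : a⁻¹ * (a * (a * r * a⁻¹) * a⁻¹) * a = a * r * a⁻¹ := by group
          have e2 : a⁻¹ * (a * r * a⁻¹) * a = r := by group
          change a⁻¹ * (a * (a * r * a⁻¹) * a⁻¹) * a = a⁻¹ * (a * r * a⁻¹) * a at h5
          rw [e1, e2] at h5
          exact h5
        exact h4
      rwa [h2] at hr
    have hS : ∀ z : Subgroup.zpowers a, ∀ r ∈ S, (z : G) * r * (z : G)⁻¹ ∈ S := by
      have h1 : ∀ k : ℕ, ∀ r ∈ S, a ^ k * r * (a ^ k)⁻¹ ∈ S := by
        intro k
        induction k with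
        | zero => intro r hr; simpa using hr
        | succ k ih =>
          intro r hr
          have h2 := ih r hr
          have e : a ^ (k + 1) * r * (a ^ (k + 1))⁻¹ = a * (a ^ k * r * (a ^ k)⁻¹) * a⁻¹ := by
            rw [pow_succ']; group
          rw [e]
          exact ⟨hnorm _ h2.1, fun h3 => h2.2 (hbij _ h3)⟩
      intro z r hr
      obtain ⟨k, hk⟩ := (mem_powers_iff_mem_zpowers (x := a) (y := (z : G))).2 z.2
      have hk' : a ^ k = z := hk
      rw [← hk']
      exact h1 k r hr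
    let act : MulAction (Subgroup.zpowers a) S :=
      { smul := fun z r => ⟨(z : G) * r * (z : G)⁻¹, hS z r r.2⟩
        one_smul := fun r => Subtype.ext (by
          change ((1 : Subgroup.zpowers a) : G) * r * ((1 : Subgroup.zpowers a) : G)⁻¹ = r
          simp)
        mul_smul := fun y z r => Subtype.ext (by
          change ((y * z : Subgroup.zpowers a) : G) * r * ((y * z : Subgroup.zpowers a) : G)⁻¹ =
            (y : G) * ((z : G) * r * (z : G)⁻¹) * (y : G)⁻¹
          simp only [Subgroup.coe_mul, mul_inv_rev]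
          group) }
    have hq : IsPGroup q (Subgroup.zpowers a) := by
      obtain ⟨k, hk⟩ := ha
      apply IsPGroup.iff_card.2
      rw [Nat.card_zpowers]
      obtain ⟨j, -, hj⟩ := (Nat.dvd_prime_pow hq.out).1 (orderOf_dvd_of_pow_eq_one hk)
      exact ⟨j, hj⟩
    have hScard : Nat.card S = (p - 1) * p ^ m := by
      have h1 : (R : Set G) = (R' : Set G) ∪ S := by
        ext r
        constructor
        · intro hr
          by_cases h : r ∈ R'
          · exact Or.inl h
          · exact Or.inr ⟨hr, h⟩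
        · rintro (h | h)
          · exact hle h
          · exact h.1
      have h2 : Disjoint (R' : Set G) S := by
        rw [Set.disjoint_left]
        intro r hr hr'
        exact hr'.2 hr
      have h3 : Nat.card R = Nat.card R' + Nat.card S := by
        have := Set.ncard_union_eq h2 (Set.toFinite _) (Set.toFinite _)
        rw [← h1] at this
        exact this
      rw [hn, hm, hn'] at h3
      have h4 : p ^ (m + 1) = p ^ m + (p - 1) * p ^ m := by
        obtain ⟨c, hc⟩ : ∃ c, p = c + 1 := ⟨p - 1, by have := hp.pos; omega⟩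
        rw [hc, Nat.add_sub_cancel, pow_succ]; ring
      omega
    have hnd : ¬ q ∣ Nat.card S := by
      rw [hScard]
      intro hdvd
      rcases (Nat.Prime.dvd_mul ‹Fact q.Prime›.out).1 hdvd with h | h
      · exact hqd h
      · have := (Nat.prime_dvd_prime_iff_eq ‹Fact q.Prime›.out hp).1
          ((Nat.Prime.dvd_of_dvd_pow ‹Fact q.Prime›.out h))
        exact hqp this
    obtain ⟨r0, hr0⟩ := @IsPGroup.nonempty_fixed_point_of_prime_not_dvd_card q
      (Subgroup.zpowers a) _ hq _ S act hnd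
    have hfix := hr0 ⟨a, Subgroup.mem_zpowers a⟩
    have hfix' : a * (r0 : G) * a⁻¹ = r0 := congrArg Subtype.val hfix
    have hr0C : (r0 : G) ∈ C := (hmemC _).2 ⟨mul_inv_eq_iff_eq_mul.1 hfix', r0.2.1⟩
    have hCp : IsPGroup p C := hR.to_le hCR
    obtain ⟨l, hl⟩ := IsPGroup.iff_card.1 hCp
    have hml : m ≤ l := by
      have := Subgroup.card_dvd_of_le hR'C
      rw [hl, hm] at this
      exact (Nat.pow_dvd_pow_iff_le_right hp.one_lt).1 this
    have hml' : m ≠ l := by
      intro h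
      have : R' = C := Subgroup.eq_of_le_of_card_ge hR'C (by rw [hl, hm, h])
      exact r0.2.2 (this ▸ hr0C)
    have hCeq : C = R := Subgroup.eq_of_le_of_card_ge hCR (by
      rw [hn, hl]
      exact Nat.pow_le_pow_right hp.pos (by omega))
    intro r hr
    exact ((hmemC r).1 (hCeq ▸ hr)).1

/-- The key step: a `q`-element of `A` normalising `P` and centralising `P ∩ A` centralises
`P ∩ B` if `q` does not divide `p - 1`. -/
theorem centralizes_other [Finite G] {A B : Subgroup G}
    (hAB : PermSub A B) {p q : ℕ} (hp : p.Prime) [hq : Fact q.Prime]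
    (hqp : q ≠ p) (hqd : ¬ q ∣ p - 1) (P : Subgroup G) (hPp : IsPGroup p P) (a : G)
    (haA : a ∈ A) (haN : ∀ x ∈ P, a * x * a⁻¹ ∈ P)
    (ha : ∃ k : ℕ, a ^ q ^ k = 1) (hc : ∀ x ∈ P ⊓ A, a * x = x * a) :
    ∀ x ∈ P ⊓ B, a * x = x * a := by
  have main : ∀ m : ℕ, ∀ x ∈ P ⊓ B, x ^ p ^ m = 1 → a * x = x * a := by
    intro m
    induction m with
    | zero =>
      intro x _ hx1
      rw [pow_zero, pow_one] at hx1
      rw [hx1, mul_one, one_mul]
    | succ m ih =>
      intro u hu' hu1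
      have hu := Subgroup.mem_inf.1 hu'
      have hup : a * u ^ p = u ^ p * a := by
        refine ih (u ^ p) (pow_mem hu' p) ?_
        rw [← pow_mul, ← pow_succ']; exact hu1
      have hU : Subgroup.zpowers u ≤ B := by
        rw [Subgroup.zpowers_le]; exact hu.2
      have hU' : Subgroup.zpowers (u ^ p) ≤ B := by
        rw [Subgroup.zpowers_le]; exact pow_mem hu.2 p
      set R : Subgroup G := P ⊓ prodSub A (Subgroup.zpowers u) (hAB _ hU) with hR
      set R' : Subgroup G := P ⊓ prodSub A (Subgroup.zpowers (u ^ p)) (hAB _ hU') with hR'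
      have hle : R' ≤ R := by
        rintro x ⟨hxP, y, hy, z, hz, rfl⟩
        refine ⟨hxP, y, hy, z, ?_, rfl⟩
        obtain ⟨k, rfl⟩ := Subgroup.mem_zpowers_iff.1 hz
        exact Subgroup.mem_zpowers_iff.2 ⟨p * k, by rw [zpow_mul, zpow_natCast]⟩
      refine centralizes_of_index_le hp hqp hqd a ha R R' (hPp.to_le inf_le_left) hle ?_ ?_ ?_
        u ⟨hu.1, le_prodSub_right (Subgroup.mem_zpowers u)⟩
      · rintro r ⟨hrP, hrS⟩
        refine ⟨haN r hrP, ?_⟩
        have h1 : a ∈ prodSub A (Subgroup.zpowers u) (hAB _ hU) := le_prodSub_left haA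
        exact Subgroup.mul_mem _ (Subgroup.mul_mem _ h1 hrS) (Subgroup.inv_mem _ h1)
      · rintro r ⟨hrP, y, hy, z, hz, rfl⟩
        obtain ⟨k, rfl⟩ := Subgroup.mem_zpowers_iff.1 hz
        have hzP : (u ^ p) ^ k ∈ P := zpow_mem (pow_mem hu.1 p) k
        have hyP : y ∈ P := by
          have := P.mul_mem hrP (P.inv_mem hzP)
          rwa [mul_inv_cancel_right] at this
        have h1 := hc y ⟨hyP, hy⟩
        have h2 : a * (u ^ p) ^ k = (u ^ p) ^ k * a := (Commute.zpow_right hup k : _)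
        calc a * (y * (u ^ p) ^ k) = (a * y) * (u ^ p) ^ k := by group
          _ = y * (a * (u ^ p) ^ k) := by rw [h1]; group
          _ = y * (u ^ p) ^ k * a := by rw [h2]; group
      · -- the index is at most `p`
        have hsurj : Function.Surjective (fun z : Fin p × R' =>
            (⟨(z.2 : G) * u ^ (z.1 : ℕ), mul_mem (hle z.2.2)
              (pow_mem (show u ∈ R from ⟨hu.1, le_prodSub_right (Subgroup.mem_zpowers u)⟩) _)⟩ :
                R)) := by
          rintro ⟨r, hrP, y, hy, z, hz, rfl⟩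
          obtain ⟨k, rfl⟩ := Subgroup.mem_zpowers_iff.1 hz
          have hp0 : (0 : ℤ) < p := by exact_mod_cast hp.pos
          have hk0 : 0 ≤ k % (p : ℤ) := Int.emod_nonneg _ hp0.ne'
          have hk1 : k % (p : ℤ) < p := Int.emod_lt_of_pos _ hp0
          obtain ⟨j, hj⟩ := Int.eq_ofNat_of_zero_le hk0
          have hjp : j < p := by rw [hj] at hk1; exact_mod_cast hk1
          have hdecomp : u ^ k = (u ^ p) ^ (k / (p : ℤ)) * u ^ j := by
            have : k = p * (k / (p : ℤ)) + j := by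
              have := Int.mul_ediv_add_emod k p
              rw [hj] at this
              exact this.symm
            conv_lhs => rw [this]
            rw [zpow_add, zpow_mul, zpow_natCast, zpow_natCast]
          refine ⟨(⟨j, hjp⟩, ⟨y * (u ^ p) ^ (k / (p : ℤ)), ?_, y, hy, _,
            Subgroup.zpow_mem_zpowers _ _, rfl⟩), ?_⟩
          · have : y * (u ^ p) ^ (k / (p : ℤ)) = y * u ^ k * (u ^ j)⁻¹ := by
              rw [hdecomp]; group
            rw [this]
            exact P.mul_mem hrP (P.inv_mem (P.pow_mem hu.1 j))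
          · apply Subtype.ext
            simp only
            rw [hdecomp, mul_assoc]
        have h1 := Nat.card_le_card_of_surjective _ hsurj
        rw [Nat.card_prod, Nat.card_fin] at h1
        exact h1
  intro x hx
  obtain ⟨k, hk⟩ := hPp ⟨x, hx.1⟩
  exact main k x hx (by simpa using congrArg Subtype.val hk)

end Pool.Agent.Q100.Prod
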